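import Pool.Agent.KS7_39.D52.Cu4

/-!
# The rank of a limit object is detected by finitely many quasirandom hypergraphons
-/

set_option autoImplicit false

open MeasureTheory ProbabilityTheory

namespace Pool.Agent.Results.MP_ae8f8e_co.FiniteTests

open Pool.Agent.R130.Theon Pool.Agent.R130.Theon.RankD Pool.Agent.KS7_39.D52

/-- Let `T` be a universal theory in a finite relational language `L`, `φ` a limit object of `T`,
`ℓ` a natural number, and for every `m` let `p m ∈ (0, 1)`. The following are equivalent: (1) the
rank of `φ` is at most `ℓ`; (2) `φ` is uniquely coupleable with the quasirandom `m`-hypergraphon of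
density `p m` for every `m > ℓ` which is at most the largest arity of `L`; (3) `φ` is uniquely
coupleable with every limit object which belongs to `UCouple[ℓ]`. The quasirandom
`m`-hypergraphons are limit objects, in `UCouple[ℓ]` for `m > ℓ`, and unique coupleability is
symmetric. -/
theorem result (ℓ : ℕ) (L : FirstOrder.Language.{0, 0}) [L.IsRelational]
    [Finite (Σ n, L.Relations n)] (T : L.Theory) [T.IsUniversal] (φ : Measure (Str L))
    (hφ : IsLimit T φ) (p : ℕ → ℝ) (hp : ∀ m, 0 < p m ∧ p m < 1) :
    List.TFAE [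
      RankLE T φ ℓ,
      ∀ m, ℓ < m → (∃ r : Σ n, L.Relations n, m ≤ r.1) →
        UniquelyCoupleable T (∅ : (langOne m).Theory) φ (quasirandom m (p m)),
      ∀ (L' : FirstOrder.Language.{0, 0}) (_ : L'.IsRelational)
        (_ : Finite (Σ n, L'.Relations n)) (T' : L'.Theory) (_ : T'.IsUniversal)
        (ψ : Measure (Str L')), IsLimit T' ψ → UCouple T' ψ ℓ → UniquelyCoupleable T T' φ ψ] ∧
    (∀ m, IsLimit (∅ : (langOne m).Theory) (quasirandom m (p m)) ∧
      (ℓ < m → UCouple (∅ : (langOne m).Theory) (quasirandom m (p m)) ℓ)) ∧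
    ∀ (L' : FirstOrder.Language.{0, 0}) (_ : L'.IsRelational) (T' : L'.Theory)
      (ψ : Measure (Str L')), IsLimit T' ψ →
        (UniquelyCoupleable T T' φ ψ ↔ UniquelyCoupleable T' T ψ φ) := by
  have := limit_prob hφ
  refine ⟨?_, fun m => ⟨quasirandom_limit m (p m), quasirandom_ucouple m (p m) ℓ⟩, ?_⟩
  · tfae_have 1 → 3 := by
      intro h L' _ _ T' _ ψ hψ hU
      have := limit_prob hψ
      exact uc_symm T' T ψ φ (hU L inferInstance inferInstance T inferInstance φ h)
    tfae_have 3 → 2 := by
      intro h m hm _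
      exact h (langOne m) inferInstance inferInstance ∅ (empty_universal m) _
        (quasirandom_limit m (p m)) (quasirandom_ucouple m (p m) ℓ hm)
    tfae_have 2 → 1 := rank_of_tests ℓ T φ hφ p hp
    tfae_finish
  · intro L' _ T' ψ hψ
    have := limit_prob hψ
    exact ⟨uc_symm T T' φ ψ, uc_symm T' T ψ φ⟩

end Pool.Agent.Results.MP_ae8f8e_co.FiniteTests
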